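import Pool.Agent.TH997.US.Stm

set_option autoImplicit false

/-!
# Universal Skolem sets: the pieces `Da` and `Db`
-/

namespace Pool.Agent.Helper50.US

open Polynomial Finset Pool.Agent.H692R2.USS

theorem intCast_ne_zero {p k : ℕ} (hk : k < p) {r : ℤ} (h0 : r ≠ 0) (hr : |r| ≤ k) :
    ((r : ℤ) : ZMod p) ≠ 0 := by
  intro h
  rw [ZMod.intCast_zmod_eq_zero_iff_dvd] at h
  have h2 := Int.le_of_dvd (abs_pos.2 h0) ((dvd_abs _ _).2 h)
  have h3 : (k : ℤ) < p := by exact_mod_cast hk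
  linarith

theorem dvd_X_pow_sub_one {p : ℕ} [Fact p.Prime] {h : (ZMod p)[X]} (hm : h.Monic)
    (hs : h.Splits) (hsep : h.Separable) (h0 : h.coeff 0 ≠ 0) : h ∣ X ^ (p - 1) - 1 := by
  have hp1 : 0 < p - 1 := Nat.sub_pos_of_lt (Fact.out : p.Prime).one_lt
  have hne : (X ^ (p - 1) - 1 : (ZMod p)[X]) ≠ 0 := X_pow_sub_C_ne_zero hp1 1
  have hfac : h = (h.roots.map (fun a => X - C a)).prod := by
    have := hs.eq_prod_roots
    rwa [hm.leadingCoeff, C_1, one_mul] at this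
  rw [hfac, Multiset.prod_X_sub_C_dvd_iff_le_roots hne, Multiset.le_iff_subset
    (nodup_roots hsep)]
  intro a ha
  rw [mem_roots hm.ne_zero] at ha
  rw [mem_roots hne]
  have ha0 : a ≠ 0 := by
    rintro rfl
    apply h0
    rw [coeff_zero_eq_eval_zero]
    exact ha
  simp [IsRoot.def, ZMod.pow_card_sub_one_eq_one ha0]

theorem t_Da : Pool.Agent.TH997.US.Da := by
  intro k p g s t rr v hp hsp hkp hg hdeg hco h0 hbez hrr hrk hann n
  haveI : Fact p.Prime := ⟨hp⟩
  set φ := Int.castRingHom (ZMod p) with hφ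
  have hm : (g.map φ).Monic := hg.map φ
  have hs : (g.map φ).Splits := hsp g hg hdeg hco
  have hrr' : φ rr ≠ 0 := intCast_ne_zero hkp hrr hrk
  have hsep : (g.map φ).Separable := by
    refine ⟨C (φ rr)⁻¹ * s.map φ, C (φ rr)⁻¹ * t.map φ, ?_⟩
    have h1 := congrArg (Polynomial.map φ) hbez
    rw [Polynomial.map_add, Polynomial.map_mul, Polynomial.map_mul, map_C, ← derivative_map] at h1
    rw [mul_assoc, mul_assoc, ← mul_add, h1, ← C_mul, inv_mul_cancel₀ hrr', C_1]
  have hc0 : (g.map φ).coeff 0 ≠ 0 := by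
    rw [coeff_map]
    exact intCast_ne_zero hkp h0 (hco 0)
  have hdvd := dvd_X_pow_sub_one hm hs hsep hc0
  have hA := (hann.map φ).of_dvd hdvd
  have h2 := congrFun hA n
  rw [map_sub, map_pow, aeval_X, map_one] at h2
  simp only [LinearMap.sub_apply, Pi.sub_apply, E_pow_apply, Module.End.one_apply,
    Pi.zero_apply] at h2
  rw [← ZMod.intCast_zmod_eq_zero_iff_dvd]
  push_cast
  simpa [hφ] using h2

theorem t_Db : Pool.Agent.TH997.US.Db := by
  intro k p T hp hsp hkp hT hTk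
  haveI : Fact p.Prime := ⟨hp⟩
  set φ := Int.castRingHom (ZMod p) with hφ
  have hk1 : (1 : ℤ) ≤ k := by exact_mod_cast (le_trans hT hTk)
  have hmon : (X ^ T - 1 : ℤ[X]).Monic := monic_X_pow_sub_C 1 (by omega)
  have hmap : (X ^ T - 1 : ℤ[X]).map φ = X ^ T - 1 := by simp
  have hs : (X ^ T - 1 : (ZMod p)[X]).Splits := by
    rw [← hmap]
    refine hsp _ hmon ?_ ?_
    · have : (X ^ T - 1 : ℤ[X]).natDegree = T := natDegree_X_pow_sub_C (n := T) (r := (1 : ℤ))
      omega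
    · intro i
      rw [coeff_sub, coeff_X_pow, coeff_one]
      split_ifs with h1 h2 h2
      · omega
      · simpa using hk1
      · simpa using hk1
      · simp
  have hTne : ((T : ℕ) : ZMod p) ≠ 0 := by
    intro h
    rw [ZMod.natCast_eq_zero_iff] at h
    have := Nat.le_of_dvd (by omega) h
    omega
  have hsep : (X ^ T - 1 : (ZMod p)[X]).Separable := by
    have := separable_X_pow_sub_C (F := ZMod p) (n := T) 1 hTne one_ne_zero
    rwa [C_1] at this
  have hc0 : (X ^ T - 1 : (ZMod p)[X]).coeff 0 ≠ 0 := by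
    rw [coeff_sub, coeff_X_pow, coeff_one, if_neg (by omega), if_pos rfl]
    simp
  have hmon' : (X ^ T - 1 : (ZMod p)[X]).Monic := monic_X_pow_sub_C 1 (by omega)
  have hdvd := dvd_X_pow_sub_one hmon' hs hsep hc0
  -- division with remainder
  by_contra hnd
  have hr : 0 < (p - 1) % T := Nat.pos_of_ne_zero (fun h => hnd (Nat.dvd_of_mod_eq_zero h))
  have hlt : (p - 1) % T < T := Nat.mod_lt _ (by omega)
  have hd1 : (X ^ T - 1 : (ZMod p)[X]) ∣ X ^ (T * ((p - 1) / T)) - 1 := by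
    have := sub_dvd_pow_sub_pow (X ^ T : (ZMod p)[X]) 1 ((p - 1) / T)
    rwa [one_pow, ← pow_mul] at this
  have hd2 : (X ^ T - 1 : (ZMod p)[X]) ∣ X ^ ((p - 1) % T) - 1 := by
    have e : (X ^ ((p - 1) % T) - 1 : (ZMod p)[X]) = (X ^ (p - 1) - 1) -
        (X ^ (T * ((p - 1) / T)) - 1) * X ^ ((p - 1) % T) := by
      conv_rhs => rw [← Nat.div_add_mod (p - 1) T]
      rw [Nat.div_add_mod]
      have e2 : (X ^ (p - 1) : (ZMod p)[X]) = X ^ (T * ((p - 1) / T)) * X ^ ((p - 1) % T) := by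
        rw [← pow_add, Nat.div_add_mod]
      rw [e2]
      ring
    rw [e]
    exact dvd_sub hdvd (hd1.mul_right _)
  have hne : (X ^ ((p - 1) % T) - 1 : (ZMod p)[X]) ≠ 0 := X_pow_sub_C_ne_zero hr 1
  have hle := natDegree_le_of_dvd hd2 hne
  have e1 : (X ^ T - 1 : (ZMod p)[X]).natDegree = T :=
    natDegree_X_pow_sub_C (n := T) (r := (1 : ZMod p))
  have e2 : (X ^ ((p - 1) % T) - 1 : (ZMod p)[X]).natDegree = (p - 1) % T :=
    natDegree_X_pow_sub_C (n := (p - 1) % T) (r := (1 : ZMod p))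
  omega

end Pool.Agent.Helper50.US
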